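/- MP_8e9e20_co: almost-equidistant sets of diameter one.  Parts. -/
import Mathlib

open Finset Matrix

namespace Pool.AED48

/-- A family of `n` distinct points of `ℝ^d` with all distances `≤ 1`, any three distinct points
containing a pair at distance `1`. -/
structure Cfg (n d : ℕ) (p : Fin n → EuclideanSpace ℝ (Fin d)) : Prop where
  inj : Function.Injective p
  le_one : ∀ i j, dist (p i) (p j) ≤ 1
  triple : ∀ i j k, i ≠ j → j ≠ k → i ≠ k →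
    dist (p i) (p j) = 1 ∨ dist (p j) (p k) = 1 ∨ dist (p i) (p k) = 1

/-- The matrix `1 - (squared distance)` off the diagonal, `0` on it. -/
noncomputable def amat {n d : ℕ} (p : Fin n → EuclideanSpace ℝ (Fin d)) :
    Matrix (Fin n) (Fin n) ℝ :=
  fun i j => if i = j then 0 else 1 - dist (p i) (p j) ^ 2

/-- quadratic form of `1 + A` -/
noncomputable def qf {n : ℕ} (A : Matrix (Fin n) (Fin n) ℝ) (v : Fin n → ℝ) : ℝ :=
  ∑ i, v i ^ 2 + ∑ i, ∑ j, v i * A i j * v j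

structure Good (n d : ℕ) (A : Matrix (Fin n) (Fin n) ℝ) : Prop where
  symm : ∀ i j, A i j = A j i
  nonneg : ∀ i j, 0 ≤ A i j
  lt_one : ∀ i j, A i j < 1
  diag : ∀ i, A i i = 0
  tri : ∀ i j k, A i j * A j k * A k i = 0
  lin : ∃ L : (Fin n → ℝ) →ₗ[ℝ] (Fin d → ℝ), ∀ v : Fin n → ℝ, ∑ i, v i = 0 →
    qf A v = 2 * ∑ r, (L v r) ^ 2

/-- spectral data: eigenvalues `μ a`, orthonormal eigenvectors `U a`. -/
structure SD {n : ℕ} (A : Matrix (Fin n) (Fin n) ℝ) (μ : Fin n → ℝ) (U : Fin n → Fin n → ℝ) :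
    Prop where
  orth : ∀ a b, ∑ i, U a i * U b i = if a = b then 1 else 0
  orth' : ∀ i j, ∑ a, U a i * U a j = if i = j then 1 else 0
  eq : ∀ i j, A i j = ∑ a, μ a * U a i * U a j
  eig : ∀ a i, ∑ j, A i j * U a j = μ a * U a i
  sq : ∀ i j, ∑ k, A i k * A k j = ∑ a, μ a ^ 2 * U a i * U a j
  cube : ∀ i j, ∑ k, ∑ l, A i k * A k l * A l j = ∑ a, μ a ^ 3 * U a i * U a j

/-- GEO: the matrix of a configuration is good. (`L v = ∑ v_i p_i`.) -/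
def S_GEO : Prop := ∀ (n d : ℕ) (p : Fin n → EuclideanSpace ℝ (Fin d)), Cfg n d p →
  Good n d (amat p)

/-- SPE: spectral theorem. -/
def S_SPE : Prop := ∀ (n : ℕ) (A : Matrix (Fin n) (Fin n) ℝ), (∀ i j, A i j = A j i) →
  ∃ (μ : Fin n → ℝ) (U : Fin n → Fin n → ℝ), SD A μ U

/-- TRC: traces. -/
def S_TRC : Prop := ∀ (n d : ℕ) (A : Matrix (Fin n) (Fin n) ℝ) (μ : Fin n → ℝ)
  (U : Fin n → Fin n → ℝ), Good n d A → SD A μ U → ∑ a, μ a = 0 ∧ ∑ a, μ a ^ 3 = 0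

/-- NEG: at most one eigenvalue below `-1`. -/
def S_NEG : Prop := ∀ (n d : ℕ) (A : Matrix (Fin n) (Fin n) ℝ) (μ : Fin n → ℝ)
  (U : Fin n → Fin n → ℝ), Good n d A → SD A μ U → ∀ a b, μ a < -1 → μ b < -1 → a = b

/-- POS: at most `d + 1` eigenvalues above `-1`. -/
def S_POS : Prop := ∀ (n d : ℕ) (A : Matrix (Fin n) (Fin n) ℝ) (μ : Fin n → ℝ)
  (U : Fin n → Fin n → ℝ), Good n d A → SD A μ U →
  (univ.filter (fun a => -1 < μ a)).card ≤ d + 1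

/-- PER: Perron: some eigenvalue is at least the absolute value of any given one. -/
def S_PER : Prop := ∀ (n : ℕ) (A : Matrix (Fin n) (Fin n) ℝ) (μ : Fin n → ℝ)
  (U : Fin n → Fin n → ℝ), (∀ i j, 0 ≤ A i j) → SD A μ U → ∀ a, ∃ b, |μ a| ≤ μ b

/-- INQ: the numerical part. -/
def S_INQ : Prop := ∀ (n d : ℕ) (μ : Fin n → ℝ), ∑ a, μ a = 0 → ∑ a, μ a ^ 3 = 0 →
  (∀ a b, μ a < -1 → μ b < -1 → a = b) →
  (univ.filter (fun a => -1 < μ a)).card ≤ d + 1 →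
  (∀ a, ∃ b, |μ a| ≤ μ b) → 2 * d + 2 ≤ n →
  n = 2 * d + 2 ∧
  ((∀ a, μ a = 1 ∨ μ a = -1) ∨
   (∃ (t : ℝ) (a₀ a₁ : Fin n), 1 < t ∧ μ a₀ = -t ∧ μ a₁ = t ∧
      (∀ a, a ≠ a₀ → a ≠ a₁ → μ a = 1 ∨ μ a = -1)))

/-- EQ1: the first equality case is impossible. -/
def S_EQ1 : Prop := ∀ (n d : ℕ) (A : Matrix (Fin n) (Fin n) ℝ) (μ : Fin n → ℝ)
  (U : Fin n → Fin n → ℝ), Good n d A → SD A μ U → 0 < n → (∀ a, μ a = 1 ∨ μ a = -1) → False

/-- BIP: in the second equality case: the eigenvectors of `±t` agree up to signs, which give a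
bipartition. (`u i ^ 2 = w i ^ 2` from `A^3` having zero diagonal; no zero coordinate, by the argument
of EQ1; `A i j = 0` when `u i * w i` and `u j * w j` have the same sign, from `A^3 ≥ A i j * (A^2) j j`.) -/
def S_BIP : Prop := ∀ (n d : ℕ) (A : Matrix (Fin n) (Fin n) ℝ) (μ : Fin n → ℝ)
  (U : Fin n → Fin n → ℝ) (t : ℝ) (a₀ a₁ : Fin n), Good n d A → SD A μ U → 1 < t →
  μ a₀ = -t → μ a₁ = t → (∀ a, a ≠ a₀ → a ≠ a₁ → μ a = 1 ∨ μ a = -1) →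
  (∀ i, U a₀ i ^ 2 = U a₁ i ^ 2) ∧ (∀ i, U a₁ i ≠ 0) ∧
  (∀ i j, 0 < (U a₀ i * U a₁ i) * (U a₀ j * U a₁ j) → A i j = 0)

/-- SIM: an independent set has at most `d + 1` elements. -/
def S_SIM : Prop := ∀ (n d : ℕ) (A : Matrix (Fin n) (Fin n) ℝ), Good n d A →
  ∀ X : Finset (Fin n), (∀ i ∈ X, ∀ j ∈ X, A i j = 0) → X.card ≤ d + 1

/-- FIN: final contradiction.  `s` is the sign vector of the bipartition, `∑ s = 0`. -/
def S_FIN : Prop := ∀ (n d : ℕ) (A : Matrix (Fin n) (Fin n) ℝ) (μ : Fin n → ℝ)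
  (U : Fin n → Fin n → ℝ) (t : ℝ) (a₀ a₁ : Fin n) (s : Fin n → ℝ), Good n d A → SD A μ U → 1 < t →
  μ a₀ = -t → μ a₁ = t → (∀ a, a ≠ a₀ → a ≠ a₁ → μ a = 1 ∨ μ a = -1) →
  (∀ i, s i = 1 ∨ s i = -1) → (∀ i, U a₀ i = s i * U a₁ i) → (∀ i, U a₁ i ≠ 0) →
  (∀ i j, s i * s j = 1 → A i j = 0) → ∑ i, s i = 0 → False

/-- LOW: the construction.  `n = d + 1 + 2⌊(d+1)/3⌋`. -/
def S_LOW : Prop := ∀ d : ℕ, ∃ p : Fin (d + 1 + 2 * ((d + 1) / 3)) → EuclideanSpace ℝ (Fin d),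
  Cfg _ d p

end Pool.AED48
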