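/- MP_8e9e20_co: parts for the lower bound. -/
import Pool.Agent.Helper48.AED.Spec

open Finset Matrix

namespace Pool.AED48

/-- spherical block: `m` points of `ℝ^k` on the sphere of radius `1/√2` about `0`, in a hyperplane
not through `0`. -/
structure Blk (m k : ℕ) (q : Fin m → EuclideanSpace ℝ (Fin k)) : Prop where
  cfg : Cfg m k q
  norm : ∀ i, ‖q i‖ ^ 2 = 1 / 2
  plane : ∃ η : EuclideanSpace ℝ (Fin k), ∀ i, inner ℝ η (q i) = 1

/-- JOIN: points `(q i, 0)` and `(0, q' j)`. -/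
def S_JOIN : Prop := ∀ (m k m' k' : ℕ) (q : Fin m → EuclideanSpace ℝ (Fin k))
  (q' : Fin m' → EuclideanSpace ℝ (Fin k')), Blk m k q → Blk m' k' q' →
  ∃ q'' : Fin (m + m') → EuclideanSpace ℝ (Fin (k + k')), Blk (m + m') (k + k') q''

/-- DOWN: move the hyperplane `η = 1` isometrically to `ℝ^d`. -/
def S_DOWN : Prop := ∀ (m d : ℕ) (q : Fin m → EuclideanSpace ℝ (Fin (d + 1))), Blk m (d + 1) q →
  ∃ p : Fin m → EuclideanSpace ℝ (Fin d), Cfg m d p

/-- PENT: regular pentagon with diagonal 1: `(r cos(2πj/5), r sin(2πj/5), h)`,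
`r^2 = (5-√5)/10`, `h^2 = √5/10`. -/
def S_PENT : Prop := ∃ q : Fin 5 → EuclideanSpace ℝ (Fin 3), Blk 5 3 q

/-- HS: the Hoffman-Singleton graph: Gram matrix `(1 + A/3)/2`. With `E = 3 + A`, `E^2 = 5E + J`,
`P = (E - J/5)/5` is a projection of trace 28; `q i = (√(5/6) P e_i, 1/√30)` in `range P ⊕ ℝ`. -/
def S_HS : Prop := ∃ q : Fin 50 → EuclideanSpace ℝ (Fin 29), Blk 50 29 q

/-- HSG: the Hoffman-Singleton graph as a 0-1 matrix with `A^2 + A - 6 = J` (so triangle free). -/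
def S_HSG : Prop := ∃ A : Fin 50 → Fin 50 → ℕ, (∀ i j, A i j = A j i) ∧ (∀ i j, A i j ≤ 1) ∧
  (∀ i, A i i = 0) ∧
  (∀ i j, ∑ k, A i k * A k j + A i j = if i = j then 7 else 1)

end Pool.AED48
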