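import Pool.Agent.Helper48.AED.Spec

open Finset Matrix

namespace Pool.Agent.Helper48.AED.FIN

open Pool.AED48

variable {n : ℕ} {A : Matrix (Fin n) (Fin n) ℝ} {μ : Fin n → ℝ} {U : Fin n → Fin n → ℝ}

/-- coefficient -/
def co (U : Fin n → Fin n → ℝ) (x : Fin n → ℝ) (a : Fin n) : ℝ := ∑ j, U a j * x j

theorem expand (h : SD A μ U) (x : Fin n → ℝ) (i : Fin n) : x i = ∑ a, co U x a * U a i := by
  have h1 : ∑ a, co U x a * U a i = ∑ j, (∑ a, U a j * U a i) * x j := by
    simp only [co, Finset.sum_mul]
    rw [Finset.sum_comm]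
    refine Finset.sum_congr rfl fun j _ => Finset.sum_congr rfl fun a _ => by ring
  rw [h1]
  simp only [h.orth']
  simp

theorem pars (h : SD A μ U) (x y : Fin n → ℝ) :
    ∑ i, x i * y i = ∑ a, co U x a * co U y a := by
  have h1 : ∀ i, x i * y i = ∑ a, co U x a * (U a i * y i) := by
    intro i
    conv_lhs => rw [expand h x i]
    rw [Finset.sum_mul]
    refine Finset.sum_congr rfl fun a _ => by ring
  simp only [h1]
  rw [Finset.sum_comm]
  refine Finset.sum_congr rfl fun a _ => ?_
  rw [← Finset.mul_sum]; rfl

theorem qform (h : SD A μ U) (x : Fin n → ℝ) :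
    ∑ i, ∑ j, x i * A i j * x j = ∑ a, μ a * co U x a ^ 2 := by
  have h1 : ∀ i j, x i * A i j * x j = ∑ a, μ a * ((U a i * x i) * (U a j * x j)) := by
    intro i j
    rw [h.eq i j, Finset.mul_sum, Finset.sum_mul]
    refine Finset.sum_congr rfl fun a _ => by ring
  simp only [h1]
  have h2 : ∀ i, ∑ j, ∑ a, μ a * ((U a i * x i) * (U a j * x j))
      = ∑ a, μ a * ((U a i * x i) * co U x a) := by
    intro i
    rw [Finset.sum_comm]
    refine Finset.sum_congr rfl fun a _ => ?_
    rw [← Finset.mul_sum, ← Finset.mul_sum]; rfl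
  simp only [h2]
  rw [Finset.sum_comm]
  refine Finset.sum_congr rfl fun a _ => ?_
  rw [← Finset.mul_sum, ← Finset.sum_mul, sq]; rfl

theorem qfe (h : SD A μ U) (x : Fin n → ℝ) : qf A x = ∑ a, (1 + μ a) * co U x a ^ 2 := by
  unfold qf
  have h1 : ∑ i, x i ^ 2 = ∑ a, co U x a ^ 2 := by
    have := pars h x x
    simpa [sq] using this
  rw [h1, qform h x, ← Finset.sum_add_distrib]
  refine Finset.sum_congr rfl fun a _ => by ring

theorem co_U (h : SD A μ U) (a b : Fin n) : co U (U a) b = if b = a then 1 else 0 := by
  unfold co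
  rw [h.orth b a]

theorem main : S_FIN := by
  intro n d A μ U t a₀ a₁ s hG h ht h0 h1 hother hs hw hu hind hsum
  have hne : a₀ ≠ a₁ := by
    rintro rfl
    rw [h0] at h1; linarith
  obtain ⟨L, hL⟩ := hG.lin
  have hpos : ∀ v : Fin n → ℝ, ∑ i, v i = 0 → 0 ≤ qf A v := by
    intro v hv
    rw [hL v hv]
    exact mul_nonneg (by norm_num) (Finset.sum_nonneg fun r _ => sq_nonneg _)
  have hss : ∀ i, s i * s i = 1 := by
    intro i
    rcases hs i with h | h <;> rw [h] <;> norm_num
  -- (0)
  have hα : ∑ i, U a₁ i ≠ 0 := by
    set x : Fin n → ℝ := fun i => |U a₁ i| with hx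
    have hx2 : ∑ a, co U x a ^ 2 = 1 := by
      have e1 := pars h x x
      have e2 : ∑ i, x i * x i = 1 := by
        have := h.orth a₁ a₁
        simp only [if_true] at this
        rw [← this]
        refine Finset.sum_congr rfl fun i _ => by simp [hx]
      rw [e2] at e1
      rw [e1]
      refine Finset.sum_congr rfl fun a _ => by ring
    have e3 : t ≤ ∑ i, ∑ j, x i * A i j * x j := by
      have e4 : ∑ i, ∑ j, U a₁ i * A i j * U a₁ j = t := by
        rw [qform h (U a₁)]
        simp only [co_U h a₁]
        simp [h1]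
      rw [← e4]
      refine Finset.sum_le_sum fun i _ => Finset.sum_le_sum fun j _ => ?_
      have : U a₁ i * A i j * U a₁ j = A i j * (U a₁ i * U a₁ j) := by ring
      rw [this]
      have : x i * A i j * x j = A i j * (x i * x j) := by ring
      rw [this]
      refine mul_le_mul_of_nonneg_left ?_ (hG.nonneg i j)
      simp only [hx, ← abs_mul]
      exact le_abs_self _
    rw [qform h x] at e3
    have hle : ∀ a, μ a ≤ t := by
      intro a
      by_cases ha0 : a = a₀
      · rw [ha0, h0]; linarith
      by_cases ha1 : a = a₁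
      · rw [ha1, h1]
      rcases hother a ha0 ha1 with h | h <;> rw [h] <;> linarith
    have hlt : ∀ a, a ≠ a₁ → μ a < t := by
      intro a ha1
      by_cases ha0 : a = a₀
      · rw [ha0, h0]; linarith
      rcases hother a ha0 ha1 with h | h <;> rw [h] <;> linarith
    have e5 : ∑ a, (t - μ a) * co U x a ^ 2 ≤ 0 := by
      have : ∑ a, (t - μ a) * co U x a ^ 2 = t * ∑ a, co U x a ^ 2 - ∑ a, μ a * co U x a ^ 2 := by
        rw [Finset.mul_sum, ← Finset.sum_sub_distrib]
        refine Finset.sum_congr rfl fun a _ => by ring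
      rw [this, hx2]; linarith
    have e6 : ∀ a, 0 ≤ (t - μ a) * co U x a ^ 2 := fun a =>
      mul_nonneg (by linarith [hle a]) (sq_nonneg _)
    have e7 : ∀ a, a ≠ a₁ → co U x a = 0 := by
      intro a ha
      have h8 : (t - μ a) * co U x a ^ 2 ≤ ∑ a, (t - μ a) * co U x a ^ 2 :=
        Finset.single_le_sum (f := fun a => (t - μ a) * co U x a ^ 2) (fun a _ => e6 a)
          (Finset.mem_univ a)
      have h9 : (t - μ a) * co U x a ^ 2 = 0 := le_antisymm (h8.trans e5) (e6 a)
      rcases mul_eq_zero.1 h9 with h | h
      · linarith [hlt a ha]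
      · exact pow_eq_zero_iff (two_ne_zero) |>.1 h
    have e8 : ∀ i, x i = co U x a₁ * U a₁ i := by
      intro i
      rw [expand h x i]
      rw [Finset.sum_eq_single a₁]
      · intro b _ hb; rw [e7 b hb]; ring
      · intro hh; exact absurd (Finset.mem_univ _) hh
    intro hzero
    have e9 : ∑ i, x i = 0 := by
      rw [Finset.sum_congr rfl (fun i _ => e8 i), ← Finset.mul_sum, hzero, mul_zero]
    have e10 : x a₁ = 0 := by
      have := (Finset.sum_eq_zero_iff_of_nonneg (fun i _ => abs_nonneg (U a₁ i))).1 e9 a₁
        (Finset.mem_univ _)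
      exact this
    exact hu a₁ (abs_eq_zero.1 e10)
  -- (1)
  have hm1 : ∀ a, μ a = -1 → ∑ i, U a i = 0 := by
    intro a ha
    by_contra hz
    have haa0 : a₀ ≠ a := by
      rintro rfl; rw [h0] at ha; linarith
    set z := ∑ i, U a i with hzdef
    set β := ∑ i, U a₀ i with hβ
    set v : Fin n → ℝ := fun i => U a₀ i - (β / z) * U a i with hv
    have hv0 : ∑ i, v i = 0 := by
      simp only [hv, Finset.sum_sub_distrib, ← Finset.mul_sum]
      rw [← hzdef, ← hβ]
      field_simp
      ring
    have hco : ∀ b, co U v b = (if b = a₀ then 1 else 0) - (β / z) * (if b = a then 1 else 0) := by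
      intro b
      rw [← co_U h a₀ b, ← co_U h a b]
      simp only [co, hv, Finset.mul_sum, ← Finset.sum_sub_distrib]
      refine Finset.sum_congr rfl fun i _ => by ring
    have hq := qfe h v
    rw [Finset.sum_eq_single a₀] at hq
    · have := hpos v hv0
      rw [hq, hco a₀] at this
      simp only [if_true, if_neg haa0, h0] at this
      nlinarith
    · intro b _ hb
      rw [hco b, if_neg hb]
      by_cases hba : b = a
      · rw [hba, ha]; ring
      · rw [if_neg hba]; ring
    · intro hh; exact absurd (Finset.mem_univ _) hh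
  -- (2)
  have hp1 : ∀ a, μ a = 1 → co U s a = 0 := by
    intro a ha
    set y : Fin n → ℝ := fun i => s i * U a i with hy
    have hAy : ∀ i, ∑ j, A i j * y j = - y i := by
      intro i
      have e1 : ∀ j, A i j * y j = - s i * (A i j * U a j) := by
        intro j
        have : A i j * s j = - s i * A i j := by
          rcases hs i with hi | hi <;> rcases hs j with hj | hj
          · rw [hind i j (by rw [hi, hj]; ring)]; ring
          · rw [hi, hj]; ring
          · rw [hi, hj]; ring
          · rw [hind i j (by rw [hi, hj]; ring)]; ring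
        calc A i j * y j = (A i j * s j) * U a j := by simp only [hy]; ring
          _ = _ := by rw [this]; ring
      rw [Finset.sum_congr rfl (fun j _ => e1 j), ← Finset.mul_sum, h.eig a i, ha]
      simp only [hy]; ring
    have hcy : ∀ b, (μ b + 1) * co U y b = 0 := by
      intro b
      have e1 : ∑ i, ∑ j, U b i * A i j * y j = - co U y b := by
        have : ∀ i, ∑ j, U b i * A i j * y j = - (U b i * y i) := by
          intro i
          have := hAy i
          calc ∑ j, U b i * A i j * y j = U b i * ∑ j, A i j * y j := by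
                rw [Finset.mul_sum]; refine Finset.sum_congr rfl fun j _ => by ring
            _ = _ := by rw [this]; ring
        simp only [this, Finset.sum_neg_distrib]; rfl
      have e2 : ∑ i, ∑ j, U b i * A i j * y j = μ b * co U y b := by
        rw [Finset.sum_comm]
        have : ∀ j, ∑ i, U b i * A i j * y j = μ b * (U b j * y j) := by
          intro j
          have := h.eig b j
          calc ∑ i, U b i * A i j * y j = (∑ i, A j i * U b i) * y j := by
                rw [Finset.sum_mul]
                refine Finset.sum_congr rfl fun i _ => by rw [hG.symm i j]; ring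
            _ = _ := by rw [this]; ring
        simp only [this, ← Finset.mul_sum]; rfl
      rw [e1] at e2; linarith
    have hsumy : ∑ i, y i = 0 := by
      have e1 := pars h (fun _ => (1 : ℝ)) y
      simp only [one_mul] at e1
      rw [e1]
      refine Finset.sum_eq_zero fun b _ => ?_
      by_cases hb : μ b = -1
      · have : co U (fun _ => (1 : ℝ)) b = 0 := by
          simp only [co, mul_one]; exact hm1 b hb
        rw [this, zero_mul]
      · have : co U y b = 0 := by
          rcases mul_eq_zero.1 (hcy b) with h | h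
          · exact absurd (by linarith) hb
          · exact h
        rw [this, mul_zero]
    have : co U s a = ∑ i, y i := by
      simp only [co, hy]
      refine Finset.sum_congr rfl fun i _ => by ring
    rw [this, hsumy]
  -- (3)
  have e0 := pars h (fun _ => (1 : ℝ)) s
  simp only [one_mul] at e0
  rw [hsum] at e0
  have c1 : ∀ b, co U (fun _ => (1 : ℝ)) b = ∑ i, U b i := by
    intro b; simp only [co, mul_one]
  have hsplit : ∑ a, co U (fun _ => (1 : ℝ)) a * co U s a
      = ∑ a ∈ ({a₀, a₁} : Finset (Fin n)), co U (fun _ => (1 : ℝ)) a * co U s a := by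
    symm
    apply Finset.sum_subset (Finset.subset_univ _)
    intro b _ hb
    simp only [Finset.mem_insert, Finset.mem_singleton, not_or] at hb
    rcases hother b hb.1 hb.2 with h' | h'
    · rw [hp1 b h', mul_zero]
    · rw [c1, hm1 b h', zero_mul]
  rw [hsplit, Finset.sum_pair hne, c1, c1] at e0
  have f0 : co U s a₀ = ∑ i, U a₁ i := by
    simp only [co]
    refine Finset.sum_congr rfl fun i _ => ?_
    rw [hw i]
    calc s i * U a₁ i * s i = (s i * s i) * U a₁ i := by ring
      _ = _ := by rw [hss i, one_mul]
  have f1 : co U s a₁ = ∑ i, U a₀ i := by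
    simp only [co]
    refine Finset.sum_congr rfl fun i _ => ?_
    rw [hw i]; ring
  rw [f0, f1] at e0
  have hβ0 : ∑ i, U a₀ i = 0 := by
    have : (∑ i, U a₁ i) * (2 * ∑ i, U a₀ i) = 0 := by linarith
    rcases mul_eq_zero.1 this with h' | h'
    · exact absurd h' hα
    · linarith
  have := hpos (U a₀) hβ0
  rw [qfe h (U a₀)] at this
  simp only [co_U h a₀] at this
  rw [Finset.sum_eq_single a₀] at this
  · simp only [if_true, h0] at this; nlinarith
  · intro b _ hb; rw [if_neg hb]; ring
  · intro hh; exact absurd (Finset.mem_univ _) hh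

end Pool.Agent.Helper48.AED.FIN
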