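import Pool.Agent.Helper48.AED.Spec
import Pool.Agent.Helper48.AED.FIN

open Finset Matrix

namespace Pool.AED48

theorem upper (hGEO : S_GEO) (hSPE : S_SPE) (hTRC : S_TRC) (hNEG : S_NEG) (hPOS : S_POS)
    (hPER : S_PER) (hINQ : S_INQ) (hEQ1 : S_EQ1) (hBIP : S_BIP) (hSIM : S_SIM)
    (hFIN : S_FIN) (n d : ℕ) (p : Fin n → EuclideanSpace ℝ (Fin d)) (hp : Cfg n d p) :
    n ≤ 2 * d + 1 := by
  by_contra hcon
  have hn : 2 * d + 2 ≤ n := by omega
  have hG := hGEO n d p hp
  obtain ⟨μ, U, hS⟩ := hSPE n (amat p) hG.symm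
  obtain ⟨ht1, ht3⟩ := hTRC n d _ μ U hG hS
  obtain ⟨hn2, halt⟩ := hINQ n d μ ht1 ht3 (hNEG n d _ μ U hG hS) (hPOS n d _ μ U hG hS)
    (hPER n _ μ U hG.nonneg hS) hn
  rcases halt with hall | ⟨t, a₀, a₁, ht, h0, h1, hother⟩
  · exact hEQ1 n d _ μ U hG hS (by omega) hall
  · obtain ⟨hsq, hne, hbip⟩ := hBIP n d _ μ U t a₀ a₁ hG hS ht h0 h1 hother
    set s : Fin n → ℝ := fun i => U a₀ i / U a₁ i with hs
    have hs1 : ∀ i, s i ^ 2 = 1 := by
      intro i
      simp only [hs, div_pow, hsq i]
      exact div_self (pow_ne_zero 2 (hne i))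
    have hs2 : ∀ i, s i = 1 ∨ s i = -1 := fun i => by
      have := hs1 i
      have h2 : (s i - 1) * (s i + 1) = 0 := by ring_nf; linarith
      rcases mul_eq_zero.1 h2 with h | h
      · left; linarith
      · right; linarith
    have hw : ∀ i, U a₀ i = s i * U a₁ i := by
      intro i
      simp only [hs]
      rw [div_mul_cancel₀ _ (hne i)]
    have hind : ∀ i j, s i * s j = 1 → amat p i j = 0 := by
      intro i j hij
      apply hbip
      rw [hw i, hw j]
      have : s i * U a₁ i * U a₁ i * (s j * U a₁ j * U a₁ j)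
          = (s i * s j) * (U a₁ i ^ 2 * U a₁ j ^ 2) := by ring
      rw [this, hij, one_mul]
      have h1 := hne i
      have h2 := hne j
      positivity
    have hsum : ∑ i, s i = 0 := by
      have hX : (univ.filter (fun i => s i = 1)).card ≤ d + 1 := by
        apply hSIM n d _ hG
        intro i hi j hj
        rw [Finset.mem_filter] at hi hj
        exact hind i j (by rw [hi.2, hj.2]; ring)
      have hY : (univ.filter (fun i => ¬ s i = 1)).card ≤ d + 1 := by
        apply hSIM n d _ hG
        intro i hi j hj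
        rw [Finset.mem_filter] at hi hj
        have h1 := (hs2 i).resolve_left hi.2
        have h2 := (hs2 j).resolve_left hj.2
        exact hind i j (by rw [h1, h2]; ring)
      have hXY := Finset.card_filter_add_card_filter_not (s := (univ : Finset (Fin n)))
        (fun i => s i = 1)
      rw [Finset.card_univ, Fintype.card_fin] at hXY
      have e1 : ∑ i, s i = ∑ i ∈ univ.filter (fun i => s i = 1), s i
          + ∑ i ∈ univ.filter (fun i => ¬ s i = 1), s i :=
        (Finset.sum_filter_add_sum_filter_not univ (fun i => s i = 1) s).symm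
      have e2 : ∑ i ∈ univ.filter (fun i => s i = 1), s i
          = (univ.filter (fun i => s i = 1)).card := by
        rw [Finset.sum_congr rfl (g := fun _ => (1 : ℝ))]
        · simp
        · intro i hi; exact (Finset.mem_filter.1 hi).2
      have e3 : ∑ i ∈ univ.filter (fun i => ¬ s i = 1), s i
          = -((univ.filter (fun i => ¬ s i = 1)).card : ℝ) := by
        rw [Finset.sum_congr rfl (g := fun _ => (-1 : ℝ))]
        · simp
        · intro i hi; exact (hs2 i).resolve_left (Finset.mem_filter.1 hi).2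
      rw [e1, e2, e3]
      have : (univ.filter (fun i => s i = 1)).card = (univ.filter (fun i => ¬ s i = 1)).card := by
        omega
      rw [this]; ring
    exact hFIN n d _ μ U t a₀ a₁ s hG hS ht h0 h1 hother hs2 hw hne hind hsum

end Pool.AED48
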