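import Pool.Agent.Helper48.AED.Spec3
import Pool.Agent.Helper48.AED.Upper
import Pool.Agent.Helper11.AED.GEO
import Pool.Agent.Helper14.AED.JOIN
import Pool.Agent.Helper14.AED.SIM
import Pool.Agent.Helper33.AED.HSG
import Pool.Agent.Helper34.AED.EQ1
import Pool.Agent.Helper46.AED.TRC
import Pool.Agent.Helper53.AED.NEG
import Pool.Agent.Helper54.AED.POS
import Pool.Agent.Helper54.AED.SPE
import Pool.Agent.Helper65.AED.DOWN
import Pool.Agent.Helper65.AED.PENT
import Pool.Agent.Helper81.AED.HS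
import Pool.Agent.Helper83.AED.BIP
import Pool.Agent.Helper86.AED.INQ
import Pool.Agent.Helper9.AED.PER

open Finset Matrix

namespace Pool.AED48

/-- Any three distinct points of `V` include two at distance exactly `1`. -/
def AlmostEquidistant {d : ℕ} (V : Finset (EuclideanSpace ℝ (Fin d))) : Prop :=
  ∀ x ∈ V, ∀ y ∈ V, ∀ z ∈ V, x ≠ y → y ≠ z → x ≠ z →
    dist x y = 1 ∨ dist y z = 1 ∨ dist x z = 1

/-- Almost-equidistant diameter set: almost equidistant, of diameter `1`. -/
def IsDiameterSet {d : ℕ} (V : Finset (EuclideanSpace ℝ (Fin d))) : Prop :=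
  AlmostEquidistant V ∧ Metric.diam (V : Set (EuclideanSpace ℝ (Fin d))) = 1

/-- The largest cardinality of an almost-equidistant diameter set in `ℝ^d`. -/
noncomputable def g (d : ℕ) : ℕ :=
  sSup {n : ℕ | ∃ V : Finset (EuclideanSpace ℝ (Fin d)), IsDiameterSet V ∧ V.card = n}

theorem upper' {n d : ℕ} {p : Fin n → EuclideanSpace ℝ (Fin d)} (hp : Cfg n d p) :
    n ≤ 2 * d + 1 :=
  upper Pool.Agent.Helper11.AED.GEO.main Pool.Agent.Helper54.AED.SPE.main
    Pool.Agent.Helper46.AED.TRC.main Pool.Agent.Helper53.AED.NEG.main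
    Pool.Agent.Helper54.AED.POS.main Pool.Agent.Helper9.AED.PER.main
    Pool.Agent.Helper86.AED.INQ.main Pool.Agent.Helper34.AED.EQ1.main
    Pool.Agent.Helper83.AED.BIP.main Pool.Agent.Helper14.AED.SIM.main
    Pool.Agent.Helper48.AED.FIN.main n d p hp

theorem card_le {d : ℕ} (V : Finset (EuclideanSpace ℝ (Fin d))) (h : IsDiameterSet V) :
    V.card ≤ 2 * d + 1 := by
  obtain ⟨hae, hdiam⟩ := h
  let e := V.equivFin.symm
  have hcfg : Cfg V.card d (fun i => (e i : EuclideanSpace ℝ (Fin d))) := by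
    refine ⟨?_, ?_, ?_⟩
    · intro i j hij
      exact e.injective (Subtype.ext hij)
    · intro i j
      rw [← hdiam]
      exact Metric.dist_le_diam_of_mem V.finite_toSet.isBounded (e i).2 (e j).2
    · intro i j k hij hjk hik
      refine hae _ (e i).2 _ (e j).2 _ (e k).2 ?_ ?_ ?_
      · intro hh; exact hij (e.injective (Subtype.ext hh))
      · intro hh; exact hjk (e.injective (Subtype.ext hh))
      · intro hh; exact hik (e.injective (Subtype.ext hh))
  exact upper' hcfg

theorem bdd (d : ℕ) : BddAbove {n : ℕ | ∃ V : Finset (EuclideanSpace ℝ (Fin d)),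
    IsDiameterSet V ∧ V.card = n} := by
  refine ⟨2 * d + 1, ?_⟩
  rintro n ⟨V, hV, rfl⟩
  exact card_le V hV

theorem of_cfg {n d : ℕ} {p : Fin n → EuclideanSpace ℝ (Fin d)} (hp : Cfg n d p) (hn : 3 ≤ n) :
    n ≤ g d := by
  classical
  apply le_csSup (bdd d)
  refine ⟨univ.image p, ⟨?_, ?_⟩, ?_⟩
  · intro x hx y hy z hz hxy hyz hxz
    obtain ⟨i, -, rfl⟩ := Finset.mem_image.1 hx
    obtain ⟨j, -, rfl⟩ := Finset.mem_image.1 hy
    obtain ⟨k, -, rfl⟩ := Finset.mem_image.1 hz
    exact hp.triple i j k (fun h => hxy (by rw [h])) (fun h => hyz (by rw [h]))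
      (fun h => hxz (by rw [h]))
  · apply le_antisymm
    · apply Metric.diam_le_of_forall_dist_le zero_le_one
      intro x hx y hy
      rw [Finset.mem_coe] at hx hy
      obtain ⟨i, -, rfl⟩ := Finset.mem_image.1 hx
      obtain ⟨j, -, rfl⟩ := Finset.mem_image.1 hy
      exact hp.le_one i j
    · have hb : Bornology.IsBounded ((univ.image p : Finset (EuclideanSpace ℝ (Fin d))) :
          Set (EuclideanSpace ℝ (Fin d))) := Finset.finite_toSet _ |>.isBounded
      have hm : ∀ i, p i ∈ ((univ.image p : Finset (EuclideanSpace ℝ (Fin d))) :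
          Set (EuclideanSpace ℝ (Fin d))) := by
        intro i
        rw [Finset.mem_coe]
        exact Finset.mem_image_of_mem _ (Finset.mem_univ _)
      have h3 := hp.triple ⟨0, by omega⟩ ⟨1, by omega⟩ ⟨2, by omega⟩ (by simp) (by simp) (by simp)
      rcases h3 with h | h | h <;> rw [← h] <;>
        exact Metric.dist_le_diam_of_mem hb (hm _) (hm _)
  · rw [Finset.card_image_of_injective _ hp.inj]
    simp

theorem three : S_THREE := by
  refine ⟨fun i => EuclideanSpace.single 0 ((i : ℝ) / 2), ?_, ?_, ?_⟩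
  · intro i j hij
    have := congrArg (fun v : EuclideanSpace ℝ (Fin 1) => v 0) hij
    simp at this
    exact Fin.ext (by exact_mod_cast this)
  · intro i j
    rw [PiLp.dist_single_same, Real.dist_eq, abs_le]
    fin_cases i <;> fin_cases j <;> norm_num
  · intro i j k hij hjk hik
    simp only [PiLp.dist_single_same, Real.dist_eq]
    fin_cases i <;> fin_cases j <;> fin_cases k <;> simp at hij hjk hik ⊢

/-! ### the lower bound -/

def P (n k : ℕ) : Prop := ∃ q : Fin n → EuclideanSpace ℝ (Fin k), Blk n k q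

theorem P.add {m k m' k' : ℕ} (h : P m k) (h' : P m' k') : P (m + m') (k + k') := by
  obtain ⟨q, hq⟩ := h
  obtain ⟨q', hq'⟩ := h'
  exact Pool.Agent.Helper14.AED.JOIN.main m k m' k' q q' hq hq'

theorem P.zero : P 0 0 :=
  ⟨fun i => i.elim0, ⟨fun i => i.elim0, fun i => i.elim0, fun i => i.elim0⟩, fun i => i.elim0,
    ⟨0, fun i => i.elim0⟩⟩

theorem P.mul {m k : ℕ} (h : P m k) (a : ℕ) : P (m * a) (k * a) := by
  induction a with
  | zero => exact P.zero
  | succ a ih =>
    rw [Nat.mul_succ, Nat.mul_succ]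
    exact ih.add h

theorem P.one : P 1 1 := by
  have hs : (0 : ℝ) ≤ 1 / 2 := by norm_num
  have h2 : (0 : ℝ) < √(1 / 2) := Real.sqrt_pos.2 (by norm_num)
  refine ⟨fun _ => EuclideanSpace.single 0 (√(1 / 2)), ⟨?_, ?_, ?_⟩, ?_, ?_⟩
  · intro i j _; exact Subsingleton.elim i j
  · intro i j; simp
  · intro i j k hij; exact absurd (Subsingleton.elim i j) hij
  · intro i
    rw [PiLp.norm_single, Real.norm_eq_abs, sq_abs, Real.sq_sqrt hs]
  · refine ⟨EuclideanSpace.single 0 (1 / √(1 / 2)), fun i => ?_⟩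
    rw [EuclideanSpace.inner_single_left]
    simp

theorem lower {d a b c e : ℕ} (hMOB : b = 0 ∨ S_MOB) (h : 29 * a + 5 * b + 3 * c + e = d + 1) :
    ∃ p : Fin (50 * a + 8 * b + 5 * c + e) → EuclideanSpace ℝ (Fin d), Cfg _ d p := by
  have hHS : P 50 29 := Pool.Agent.Helper81.AED.HS.main Pool.Agent.Helper33.AED.HSG.main
  have h5 : P 5 3 := Pool.Agent.Helper65.AED.PENT.main
  have h8 : P (8 * b) (5 * b) := by
    rcases hMOB with rfl | h8
    · exact P.zero
    · exact P.mul h8 b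
  have key : P (50 * a + 8 * b + 5 * c + 1 * e) (29 * a + 5 * b + 3 * c + 1 * e) :=
    (((hHS.mul a).add h8).add (h5.mul c)).add (P.one.mul e)
  rw [one_mul, h] at key
  obtain ⟨q, hq⟩ := key
  exact Pool.Agent.Helper65.AED.DOWN.main _ d q hq

theorem g_one : g 1 = 3 := by
  apply le_antisymm
  · apply csSup_le'
    rintro n ⟨V, hV, rfl⟩
    exact card_le V hV
  · obtain ⟨p, hp⟩ := three
    exact of_cfg hp le_rfl

theorem lower_g {d a b c e : ℕ} (hMOB : b = 0 ∨ S_MOB) (hd : 1 ≤ d)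
    (h : 29 * a + 5 * b + 3 * c + e = d + 1) : 50 * a + 8 * b + 5 * c + e ≤ g d := by
  rcases Nat.lt_or_ge 1 d with h1 | h1
  · obtain ⟨p, hp⟩ := lower hMOB h
    exact of_cfg hp (by omega)
  · have hd1 : d = 1 := by omega
    subst hd1
    rw [g_one]
    omega

theorem g_le (d : ℕ) : g d ≤ 2 * d + 1 := by
  apply csSup_le'
  rintro n ⟨V, hV, rfl⟩
  exact card_le V hV

theorem g_two : g 2 = 5 := by
  apply le_antisymm (g_le 2)
  have := lower_g (d := 2) (a := 0) (b := 0) (c := 1) (e := 0) (Or.inl rfl) (by norm_num)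
    (by norm_num)
  omega

theorem attained (d : ℕ) (hd : 1 ≤ d) :
    ∃ V : Finset (EuclideanSpace ℝ (Fin d)), IsDiameterSet V ∧ V.card = g d := by
  have hmem := Nat.sSup_mem (s := {n : ℕ | ∃ V : Finset (EuclideanSpace ℝ (Fin d)),
    IsDiameterSet V ∧ V.card = n}) ?_ (bdd d)
  · exact hmem
  · by_contra hemp
    rw [Set.not_nonempty_iff_eq_empty] at hemp
    have h0 : g d = 0 := by
      unfold g
      rw [hemp]
      simp
    have := lower_g (d := d) (a := 0) (b := 0) (c := 0) (e := d + 1) (Or.inl rfl) hd (by omega)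
    omega

theorem asym (hMOB : S_MOB) (d : ℕ) (hd : 1 ≤ d) : 50 * (d + 1) ≤ 29 * g d + 66 := by
  obtain ⟨a, r, hr, har⟩ : ∃ a r, r < 29 ∧ 29 * a + r = d + 1 :=
    ⟨(d + 1) / 29, (d + 1) % 29, Nat.mod_lt _ (by norm_num), Nat.div_add_mod _ _⟩
  obtain ⟨c, e, he, hce⟩ : ∃ c e, e < 3 ∧ 3 * c + e = r :=
    ⟨r / 3, r % 3, Nat.mod_lt _ (by norm_num), Nat.div_add_mod _ _⟩
  by_cases hcase : e = 2 ∧ 1 ≤ c
  · have := lower_g (d := d) (a := a) (b := 1) (c := c - 1) (e := 0) (Or.inr hMOB) hd (by omega)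
    omega
  · have := lower_g (d := d) (a := a) (b := 0) (c := c) (e := e) (Or.inl rfl) hd (by omega)
    omega

end Pool.AED48
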