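/- MP_8e9e20_co: one more block. -/
import Pool.Agent.Helper48.AED.Spec2

namespace Pool.AED48

/-- MOB: 8 points in `ℝ^5` (weighted Möbius ladder). -/
def S_MOB : Prop := ∃ q : Fin 8 → EuclideanSpace ℝ (Fin 5), Blk 8 5 q

/-- THREE: `0, 1/2, 1` on the line. -/
def S_THREE : Prop := ∃ p : Fin 3 → EuclideanSpace ℝ (Fin 1), Cfg 3 1 p

end Pool.AED48
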